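import Mathlib
import Pool.Agent.Helper20_CNED.QcDefs
import Pool.Agent.Helper20_CNED.Main

/-!
# `MP_f60983_an`: a QCH-removable set that is not CNED

There is a compact set `E` in `ℝ³` of measure zero that is removable for quasiconformal
homeomorphisms but not CNED.  In particular the equivalence of Q1 fails (for `n = 3`).
-/

open MeasureTheory Set

namespace Pool.Agent.Results.MP_f60983_an.RemovableNotCned

open Pool.Agent.QcDefs

/-- There is a compact null set in `ℝ³` that is QCH-removable and not CNED; so it is not true that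
for all `n ≥ 2` a closed set in `ℝⁿ` is QCH-removable if and only if it is CNED. -/
theorem result :
    (∃ E : Set (Eu 3), IsCompact E ∧ volume E = 0 ∧ QCHRemovable E ∧ ¬ CNED E) ∧
    ¬ ∀ n : ℕ, 2 ≤ n → ∀ E : Set (Eu n), IsClosed E → (QCHRemovable E ↔ CNED E) := by
  have h : ∃ E : Set (Eu 3), IsCompact E ∧ volume E = 0 ∧ QCHRemovable E ∧ ¬ CNED E :=
    CNEDLink.main
  refine ⟨h, fun hall => ?_⟩
  obtain ⟨E, h1, _, h3, h4⟩ := h
  exact h4 ((hall 3 (by norm_num) E h1.isClosed).1 h3)

end Pool.Agent.Results.MP_f60983_an.RemovableNotCned
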